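import Pool.Agent.TH713.LogPairs

set_option autoImplicit false

open Polynomial KaehlerDifferential

namespace Pool.Agent.Results.MP_f76cdc_ag.SmallSpaces

open Pool.Agent.TH713.LogForms

/-- Let `k` be an algebraically closed field of characteristic `3`. For `λ = 5` and `λ = 7`, and for
`D = 1` and every positive multiple `D` of `3`, there is a space `L_{m+1,2}` with `m + 1 = 3 λ D`.
When `D` is odd, `3^(2-1) (3-1) = 6` does not divide `m + 1`. So there are spaces `L_{15,2}`,
`L_{21,2}`, `L_{45,2}`, ... (the earlier result `DivisibilityFails` gives, for `p = 3`, spaces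
`L_{m+1,2}` with `m + 1 = 63, 81, 99, ...`). -/
theorem result (k : Type*) [Field k] [IsAlgClosed k] [Algebra (ZMod 3) k] (l D : ℕ)
    (hl : l = 5 ∨ l = 7) (hD : D = 1 ∨ (3 ∣ D ∧ 0 < D)) :
    ∃ m : ℕ, m + 1 = 3 * l * D ∧
      (∃ V : Submodule (ZMod 3) (Ω[RatFunc k⁄k]), IsSpaceL k 3 m 2 V) ∧
      (Odd D → ¬ (3 ^ (2 - 1) * (3 - 1) ∣ m + 1)) := by
  have hD0 : 0 < D := by
    rcases hD with rfl | ⟨_, h⟩
    · exact Nat.one_pos
    · exact h
  have hl0 : 0 < l := by rcases hl with rfl | rfl <;> norm_num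
  have hpos : 0 < l * D := Nat.mul_pos hl0 hD0
  refine ⟨3 * (l * D) - 1, ?_, ?_, ?_⟩
  · rw [Nat.sub_add_cancel (by omega)]; ring
  · obtain ⟨i, hi⟩ : ∃ i : k, i * i = -1 := by
      obtain ⟨i, hi⟩ := IsAlgClosed.exists_pow_nat_eq (-1 : k) (n := 2) (by norm_num)
      exact ⟨i, by rw [← hi]; ring⟩
    obtain ⟨P, hP, hPd⟩ : ∃ P : k[X], derivative P = 1 ∧ P.natDegree = D := by
      rcases hD with rfl | ⟨⟨e, rfl⟩, h⟩
      · exact ⟨X, derivative_X, natDegree_X⟩
      · have he : 0 < e := by omega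
        refine ⟨(X ^ e) ^ 3 + X, ?_, ?_⟩
        · rw [derivative_add, derivative_cube, derivative_X, zero_add]
        · have h1 : ((X : k[X]) ^ e) ^ 3 = X ^ (3 * e) := by rw [← pow_mul, mul_comm]
          rw [h1]
          rw [natDegree_add_eq_left_of_natDegree_lt, natDegree_X_pow]
          rw [natDegree_X_pow, natDegree_X]
          omega
    obtain ⟨A, B, a, b, hdeg, h1, h2, h3⟩ : ∃ A B a b : k[X],
        (∀ s t : ZMod 3, ¬ (s = 0 ∧ t = 0) →
          (algebraMap (ZMod 3) k[X] s * A + algebraMap (ZMod 3) k[X] t * B).natDegree = l) ∧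
        A * a + B * b = 1 ∧ derivative (derivative (A * B ^ 2)) = - a ^ 3 ∧
        derivative (derivative (A ^ 2 * B)) = - b ^ 3 := by
      rcases hl with rfl | rfl
      · exact pair_five i hi
      · exact pair_seven i hi
    obtain ⟨A', B', a', b', hdeg', h1', h2', h3'⟩ := comp_pair A B a b P l hP hdeg h1 h2 h3
    rw [hPd] at hdeg'
    exact exists_space A' B' a' b' (l * D) hpos hdeg' h1' h2' h3'
  · intro hodd hdvd
    rw [Nat.sub_add_cancel (by omega)] at hdvd
    have hlo : Odd l := by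
      rcases hl with rfl | rfl
      · decide
      · decide
    have h1 : Odd (3 * (l * D)) := (by decide : Odd 3).mul (hlo.mul hodd)
    have h2 : 2 ∣ 3 * (l * D) := dvd_trans (by norm_num) hdvd
    exact (Nat.not_even_iff_odd.2 h1) (even_iff_two_dvd.2 h2)

end Pool.Agent.Results.MP_f76cdc_ag.SmallSpaces
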